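import Mathlib

set_option autoImplicit false

namespace Pool.Agent.Results.MP_8a808a_an.Punct

open Set Polynomial

/-- The Henon map `(x, y) ↦ (p x - b y, x)`. -/
def henon (p : ℝ[X]) (b : ℝ) (z : ℝ × ℝ) : ℝ × ℝ := (p.eval z.1 - b * z.2, z.1)

noncomputable def iv : Ioi (0 : ℝ) ≃ₜ Ioo (0 : ℝ) 1 where
  toFun t := ⟨t.1 / (1 + t.1), div_pos t.2 (by linarith [t.2.out]),
    (div_lt_one (by linarith [t.2.out])).2 (by linarith)⟩
  invFun s := ⟨s.1 / (1 - s.1), div_pos s.2.1 (by linarith [s.2.2])⟩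
  left_inv t := Subtype.ext (by have := t.2.out; dsimp; field_simp; ring)
  right_inv s := Subtype.ext (by have := sub_pos.2 s.2.2; dsimp; field_simp; ring)
  continuous_toFun := (continuous_subtype_val.div (by fun_prop)
    fun t => by linarith [t.2.out] |> fun (h : 0 < 1 + t.1) => h.ne').subtype_mk _
  continuous_invFun := (continuous_subtype_val.div (by fun_prop)
    fun s => (sub_pos.2 s.2.2).ne').subtype_mk _

/-- A conservative quadratic Henon map with an invariant open annulus without periodic points. -/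
theorem result : ∃ (p : ℝ[X]) (b : ℝ), 2 ≤ p.natDegree ∧ |b| = 1 ∧ ∃ A : Set (ℝ × ℝ), IsOpen A ∧
    Nonempty (A ≃ₜ Circle × Ioo (0 : ℝ) 1) ∧ henon p b '' A = A ∧
    ∀ z ∈ A, ∀ n, 0 < n → (henon p b)^[n] z ≠ z := by
  refine ⟨X ^ 2 + C 2 * X, 1, le_of_eq (by symm; compute_degree!), abs_one, {0}ᶜ, isOpen_compl_singleton,
    ⟨((Complex.equivRealProdCLM.toHomeomorph.symm.subtype (q := fun w => w ∈ ({0}ᶜ : Set ℂ))
      fun z => by simp).trans (homeomorphUnitSphereProd ℂ)).trans
      ((Homeomorph.refl _).prodCongr iv)⟩, ?_, fun z hz n hn h => hz ?_⟩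
  · ext ⟨x, y⟩
    constructor
    · rintro ⟨⟨u, v⟩, h, e⟩ e'
      simp only [henon, Prod.mk.injEq, mem_singleton_iff, Prod.mk_eq_zero] at e e'
      have : u = 0 := e.2.trans e'.2
      refine h (Prod.ext this ?_)
      simpa [this, e'.1] using e.1
    · refine fun h => ⟨(y, y ^ 2 + 2 * y - x), fun e => h ?_, by simp [henon]⟩
      simp only [mem_singleton_iff, Prod.mk_eq_zero] at e ⊢
      exact ⟨by simpa [e.1] using e.2, e.1⟩
  · set f := henon (X ^ 2 + C 2 * X) 1
    have k : ∀ w, (f w).1 - (f w).2 = w.1 - w.2 + w.1 ^ 2 := fun w => by simp [f, henon]; ring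
    have m : ∀ j w, w.1 - w.2 ≤ (f^[j] w).1 - (f^[j] w).2 := fun j => by
      induction j with
      | zero => exact fun _ => le_rfl
      | succ j ih => intro w; have := ih (f w); rw [k] at this; rw [Function.iterate_succ_apply]
                     nlinarith
    obtain ⟨j, rfl⟩ := Nat.exists_eq_succ_of_ne_zero hn.ne'
    have a := m j (f z)
    rw [← Function.iterate_succ_apply, h, k] at a
    have b := k (f^[j] z)
    have c := m j z
    have d : (f (f^[j] z)).2 = (f^[j] z).1 := rfl
    rw [← Function.iterate_succ_apply' f, h] at b d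
    exact Prod.ext (by simpa using (by nlinarith : z.1 ^ 2 = 0))
      (by rw [← d] at b; simpa using (by nlinarith : z.2 ^ 2 = 0))

end Pool.Agent.Results.MP_8a808a_an.Punct
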